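import Pool.Agent.X158.HZ.Stm

namespace Pool.Agent.X21.HZ

open Pool.Agent.X158.HZ

theorem t_NUM : S_NUM := by
  intro n m hn hm
  unfold mul
  obtain ⟨s, hs⟩ : ∃ s, s = n + m + 2 := ⟨_, rfl⟩
  rw [← hs]
  have hs1 : s < 2 ^ s := Nat.lt_two_pow_self
  have hms : m ≤ s := by omega
  have hm2 : m ≤ 2 ^ s := by omega
  have hn2 : n + 1 ≤ 2 ^ s := by omega
  have h1 : m.factorial ≤ 2 ^ (s * s) := by
    calc m.factorial ≤ m ^ m := Nat.factorial_le_pow m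
      _ ≤ (2 ^ s) ^ m := Nat.pow_le_pow_left hm2 m
      _ = 2 ^ (s * m) := (pow_mul 2 s m).symm
      _ ≤ 2 ^ (s * s) := Nat.pow_le_pow_right (by norm_num) (Nat.mul_le_mul_left s hms)
  have h2 : (n + 1) ^ m ≤ 2 ^ (s * s) := by
    calc (n + 1) ^ m ≤ (2 ^ s) ^ m := Nat.pow_le_pow_left hn2 m
      _ = 2 ^ (s * m) := (pow_mul 2 s m).symm
      _ ≤ 2 ^ (s * s) := Nat.pow_le_pow_right (by norm_num) (Nat.mul_le_mul_left s hms)
  have h3 : n + 1 ≤ (n + 1) ^ m := Nat.le_self_pow (by omega) _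
  have h4 : 1 + m * ((n + 1) * n + (n + 1) ^ m * n) ≤ 2 ^ (s * s + 2 * s + 2) := by
    have e1 : (n + 1) * n ≤ (n + 1) ^ m * n := Nat.mul_le_mul_right n h3
    have e2 : 1 ≤ m * ((n + 1) ^ m * n) := by
      apply Nat.succ_le_of_lt
      positivity
    have e3 : (n + 1) ^ m * n ≤ 2 ^ (s * s) * 2 ^ s := Nat.mul_le_mul h2 (by omega)
    have e4 : m * ((n + 1) ^ m * n) ≤ 2 ^ s * (2 ^ (s * s) * 2 ^ s) := Nat.mul_le_mul hm2 e3
    have e5 : m * ((n + 1) * n) ≤ m * ((n + 1) ^ m * n) := Nat.mul_le_mul_left m e1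
    calc 1 + m * ((n + 1) * n + (n + 1) ^ m * n)
        = 1 + m * ((n + 1) * n) + m * ((n + 1) ^ m * n) := by ring
      _ ≤ 4 * (2 ^ s * (2 ^ (s * s) * 2 ^ s)) := by omega
      _ = 2 ^ (s * s + 2 * s + 2) := by
        rw [pow_add, pow_add, show 2 * s = s + s by ring, pow_add]; ring
  have h5 : s * s + s * s + (s * s + 2 * s + 2) ≤ s ^ 3 := by
    obtain ⟨k, hk⟩ : ∃ k, s = k + 4 := ⟨s - 4, by omega⟩
    rw [hk]
    ring_nf
    nlinarith [Nat.zero_le k, Nat.zero_le (k ^ 2), Nat.zero_le (k ^ 3)]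
  calc m.factorial * (n + 1) ^ m * (1 + m * ((n + 1) * n + (n + 1) ^ m * n))
      ≤ 2 ^ (s * s) * 2 ^ (s * s) * 2 ^ (s * s + 2 * s + 2) :=
        Nat.mul_le_mul (Nat.mul_le_mul h1 h2) h4
    _ = 2 ^ (s * s + s * s + (s * s + 2 * s + 2)) := by rw [← pow_add, ← pow_add]
    _ ≤ 2 ^ (s ^ 3) := Nat.pow_le_pow_right (by norm_num) h5

end Pool.Agent.X21.HZ
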